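import Pool.Agent.MVD.StmtsLoc
import Pool.Agent.Helper27_MVD.CTX
import Pool.Agent.Helper81_MVD.MIR

/-!
# Squad MVD, row ECN: canonical words for `EF` (author helper23)
-/

set_option autoImplicit false

namespace Pool.Agent.MVD.H23.Ecn

open Pool.Agent.Helper14_MV Pool.Agent.Helper2_MV Pool.Agent.MVD

variable {β : FIC}

theorem rtr {a b c : List ℕ} (h : RR β a b) (h' : RR β b c) : RR β a c := β.trans h h'

/-- adjacent letters commute if one of them is in the middle -/
theorem sw (hs : S2 β) (A C : List ℕ) (a v : ℕ) (hA : v ∈ A) (hC : v ∈ C)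
    (ha : 2 ≤ (A ++ a :: v :: C).count a) : RR β (A ++ a :: v :: C) (A ++ v :: a :: C) := by
  by_cases h : a = v
  · subst h
    exact RR.refl _
  have h1 : a ∈ A ∨ a ∈ C := by
    by_contra hn
    push Not at hn
    have e1 := List.count_eq_zero.2 hn.1
    have e2 := List.count_eq_zero.2 hn.2
    rw [List.count_append, List.count_cons_self, List.count_cons_of_ne (Ne.symm h), e1, e2] at ha
    omega
  rcases h1 with h1 | h1
  · exact (Pool.Agent.MVD.H27.ctx β).2.1 hs A C a v h1 hC
  · exact ((Pool.Agent.MVD.H27.ctx β).2.1 hs A C v a hA h1).symm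

/-- a letter in the middle moves to the left -/
theorem mv (hs : S2 β) (v : ℕ) (B : List ℕ) : ∀ (A C : List ℕ), v ∈ A → v ∈ C →
    (∀ a ∈ B, 2 ≤ (A ++ (B ++ v :: C)).count a) →
      RR β (A ++ (B ++ v :: C)) (A ++ v :: (B ++ C)) := by
  induction B using List.reverseRecOn with
  | nil =>
    intro A C _ _ _
    exact RR.refl _
  | append_singleton B a ih =>
    intro A C hA hC hm
    have e1 : A ++ (B ++ [a] ++ v :: C) = (A ++ B) ++ a :: v :: C := by simp
    have e2 : A ++ (B ++ v :: (a :: C)) = (A ++ B) ++ v :: a :: C := by simp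
    have e3 : A ++ v :: (B ++ [a] ++ C) = A ++ v :: (B ++ (a :: C)) := by simp
    have h1 := sw hs (A ++ B) C a v (List.mem_append_left _ hA) hC (by
      rw [← e1]
      exact hm a (by simp))
    have h2 := ih A (a :: C) hA (List.mem_cons_of_mem _ hC) (by
      intro b hb
      have h3 := hm b (List.mem_append_left _ hb)
      simp only [List.count_append, List.count_cons, List.count_nil] at h3 ⊢
      omega)
    rw [e1, e3]
    rw [e2] at h2
    exact rtr h1 h2

theorem cnt_fil (l : List ℕ) (v a : ℕ) (h : a ≠ v) :
    (l.filter (fun b => decide (b ≠ v))).count a = l.count a :=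
  List.count_filter (by simpa using h)

theorem len_fil (l : List ℕ) (v : ℕ) :
    (l.filter (fun b => decide (b ≠ v))).length + l.count v = l.length := by
  induction l with
  | nil => rfl
  | cons a l ih =>
    by_cases h : a = v
    · subst h
      rw [List.filter_cons_of_neg (by simp), List.count_cons_self, List.length_cons]
      omega
    · rw [List.filter_cons_of_pos (by simpa using h), List.count_cons_of_ne h,
        List.length_cons, List.length_cons]
      omega

theorem mem_fil {l : List ℕ} {v a : ℕ} (h : a ∈ l.filter (fun b => decide (b ≠ v))) :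
    a ∈ l ∧ a ≠ v := by
  rw [List.mem_filter] at h
  exact ⟨h.1, by simpa using h.2⟩

theorem cnt_rep (m v a : ℕ) (h : a ≠ v) : (List.replicate m v).count a = 0 :=
  List.count_eq_zero.2 fun h' => h (List.eq_of_mem_replicate h')

theorem cnt_cons (v a : ℕ) (l : List ℕ) (h : a ≠ v) : (v :: l).count a = l.count a :=
  List.count_cons_of_ne (Ne.symm h)

/-- gathering to the right -/
theorem gr (hs : S2 β) (v : ℕ) : ∀ (E A C : List ℕ), v ∈ A → v ∈ C →
    (∀ a ∈ E, a ≠ v → 2 ≤ (A ++ (E ++ C)).count a) →
      RR β (A ++ (E ++ C)) (A ++ (E.filter (fun a => decide (a ≠ v)) ++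
        (List.replicate (E.count v) v ++ C))) := by
  intro E
  induction E with
  | nil =>
    intro A C _ _ _
    exact RR.refl _
  | cons a E ih =>
    intro A C hA hC hm
    have h1 := ih (A ++ [a]) C (List.mem_append_left _ hA) hC (by
      intro b hb hbv
      have h2 := hm b (List.mem_cons_of_mem _ hb) hbv
      have e1 : A ++ (a :: E ++ C) = (A ++ [a]) ++ (E ++ C) := by simp
      rw [e1] at h2
      exact h2)
    have e1 : A ++ (a :: E ++ C) = (A ++ [a]) ++ (E ++ C) := by simp
    by_cases ha : a = v
    · rw [e1, List.filter_cons_of_neg (by simp [ha]), ha, List.count_cons_self]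
      rw [ha] at h1
      refine rtr h1 ?_
      have e2 : A ++ [v] ++ (E.filter (fun a => decide (a ≠ v)) ++
          (List.replicate (E.count v) v ++ C)) = A ++ v :: (E.filter (fun a => decide (a ≠ v)) ++
          (List.replicate (E.count v) v ++ C)) := by simp
      have e3 : A ++ (E.filter (fun a => decide (a ≠ v)) ++
          (List.replicate (E.count v + 1) v ++ C)) = A ++ (E.filter (fun a => decide (a ≠ v)) ++
          v :: (List.replicate (E.count v) v ++ C)) := by
        rw [List.replicate_succ]
        simp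
      rw [e2, e3]
      refine (mv hs v _ A _ hA (List.mem_append_right _ hC) ?_).symm
      intro b hb
      obtain ⟨hb1, hb2⟩ := mem_fil hb
      have h2 := hm b (List.mem_cons_of_mem _ hb1) hb2
      rw [ha] at h2
      rw [List.count_append, List.count_append, cnt_cons v b _ hb2] at h2
      rw [List.count_append, List.count_append, cnt_fil _ _ _ hb2, cnt_cons v b _ hb2,
        List.count_append, cnt_rep _ _ _ hb2]
      omega
    · rw [e1, List.filter_cons_of_pos (by simpa using ha), List.count_cons_of_ne ha]
      have e2 : A ++ (a :: E.filter (fun a => decide (a ≠ v)) ++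
          (List.replicate (E.count v) v ++ C)) = A ++ [a] ++ (E.filter (fun a => decide (a ≠ v)) ++
          (List.replicate (E.count v) v ++ C)) := by simp
      rw [e2]
      exact h1

/-- gathering to the left -/
theorem gl (hs : S2 β) (v : ℕ) (E : List ℕ) : ∀ (A C : List ℕ), v ∈ A → v ∈ C →
    (∀ a ∈ E, a ≠ v → 2 ≤ (A ++ (E ++ C)).count a) →
      RR β (A ++ (E ++ C)) (A ++ (List.replicate (E.count v) v ++
        (E.filter (fun a => decide (a ≠ v)) ++ C))) := by
  induction E using List.reverseRecOn with
  | nil =>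
    intro A C _ _ _
    exact RR.refl _
  | append_singleton E a ih =>
    intro A C hA hC hm
    have h1 := ih A (a :: C) hA (List.mem_cons_of_mem _ hC) (by
      intro b hb hbv
      have h2 := hm b (List.mem_append_left _ hb) hbv
      have e1 : A ++ (E ++ [a] ++ C) = A ++ (E ++ a :: C) := by simp
      rw [e1] at h2
      exact h2)
    have e1 : A ++ (E ++ [a] ++ C) = A ++ (E ++ a :: C) := by simp
    by_cases ha : a = v
    · rw [e1, List.filter_append, List.filter_cons_of_neg (by simp [ha]), List.filter_nil,
        List.append_nil, ha, List.count_append, List.count_singleton_self]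
      rw [ha] at h1
      refine rtr h1 ?_
      have e2 : A ++ (List.replicate (E.count v) v ++ (E.filter (fun a => decide (a ≠ v)) ++
          v :: C)) = (A ++ List.replicate (E.count v) v) ++ (E.filter (fun a => decide (a ≠ v)) ++
          v :: C) := by simp
      have e3 : A ++ (List.replicate (E.count v + 1) v ++ (E.filter (fun a => decide (a ≠ v)) ++
          C)) = (A ++ List.replicate (E.count v) v) ++ v :: (E.filter (fun a => decide (a ≠ v)) ++
          C) := by
        rw [List.replicate_succ']
        simp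
      rw [e2, e3]
      refine mv hs v _ _ C (List.mem_append_left _ hA) hC ?_
      intro b hb
      obtain ⟨hb1, hb2⟩ := mem_fil hb
      have h2 := hm b (List.mem_append_left _ hb1) hb2
      rw [ha] at h2
      rw [List.count_append, List.count_append, List.count_append, cnt_cons v b _ hb2] at h2
      rw [List.count_append, List.count_append, List.count_append, cnt_fil _ _ _ hb2,
        cnt_cons v b _ hb2, cnt_rep _ _ _ hb2]
      have h3 : List.count b ([] : List ℕ) = 0 := rfl
      omega
    · rw [e1, List.filter_append, List.filter_cons_of_pos (by simpa using ha), List.filter_nil,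
        List.count_append]
      have e4 : List.count v [a] = 0 := List.count_eq_zero.2 (by simpa using Ne.symm ha)
      rw [e4, Nat.add_zero]
      have e2 : A ++ (List.replicate (E.count v) v ++ (E.filter (fun a => decide (a ≠ v)) ++ [a] ++
          C)) = A ++ (List.replicate (E.count v) v ++ (E.filter (fun a => decide (a ≠ v)) ++
          a :: C)) := by simp
      rw [e2]
      exact h1

/-- GFK for `GFd` -/
theorem gfdk (hGfk : GfkStmt) (hMrl : MrlStmt) (hs : S2 β) (n : ℕ) (hg : GFd β n)
    (p d q : List ℕ) (v k : ℕ) (hk : 3 ≤ k) (hd : d.length ≤ n) (hv : v ∉ d)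
    (hm : Mult d (p ++ (List.replicate (k - 1) v ++ (d ++ v :: q)))) :
    RR β (p ++ (List.replicate (k - 1) v ++ (d ++ v :: q)))
      (p ++ (d ++ (List.replicate k v ++ q))) := by
  obtain ⟨hrr, _, _, _, _, hs2, _⟩ := Pool.Agent.MVD.H81.mir β
  have hg' : GF (mir β) n := ((hMrl β).2.2.2.1 n).2 hg
  have h1 := hGfk (mir β) (hs2.2 hs) n hg' q.reverse d.reverse p.reverse v k hk
    (by rw [List.length_reverse]; exact hd) (by rw [List.mem_reverse]; exact hv) (by
      intro a ha
      have h2 := hm a (List.mem_reverse.1 ha)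
      have e1 : q.reverse ++ v :: (d.reverse ++ (List.replicate (k - 1) v ++ p.reverse)) =
          (p ++ (List.replicate (k - 1) v ++ (d ++ v :: q))).reverse := by
        simp [List.append_assoc]
      rw [e1, List.count_reverse]
      exact h2)
  rw [hrr] at h1
  have e1 : (q.reverse ++ v :: (d.reverse ++ (List.replicate (k - 1) v ++ p.reverse))).reverse =
      p ++ (List.replicate (k - 1) v ++ (d ++ v :: q)) := by
    simp [List.append_assoc]
  have e2 : (q.reverse ++ (List.replicate k v ++ (d.reverse ++ p.reverse))).reverse =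
      p ++ (d ++ (List.replicate k v ++ q)) := by
    simp [List.append_assoc]
  rw [e1, e2] at h1
  exact h1

/-- the last element in front of which there are no others -/
theorem last_split {l : List ℕ} {v : ℕ} (h : v ∈ l) : ∃ a b, l = a ++ v :: b ∧ v ∉ b := by
  obtain ⟨a, b, h1, h2⟩ := List.eq_append_cons_of_mem (List.mem_reverse.2 h)
  refine ⟨b.reverse, a.reverse, ?_, by rwa [List.mem_reverse]⟩
  have h3 := congrArg List.reverse h1
  rw [List.reverse_reverse] at h3
  rw [h3]
  simp

/-- counts in the words -/
theorem cw {p c q t : List ℕ} {x y : ℕ} (ht : t.Perm [x, y]) (a : ℕ) :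
    (p ++ y :: (c ++ (t ++ q))).count a = (p ++ y :: (c ++ ([x, y] ++ q))).count a := by
  have h1 := ht.count_eq a
  simp only [List.count_append, List.count_cons (a := a) (b := y)] at h1 ⊢
  omega

theorem fin3 {a b c d : List ℕ} (h1 : RR β a b) (h2 : RR β b c) (h3 : RR β d c) : RR β a d :=
  rtr h1 (rtr h2 h3.symm)

/-- a letter of the middle which occurs in `p` -/
theorem sd1 (hs : S2 β) (n : ℕ) (hE : EF β n) (p c1 c2 q : List ℕ) (x y v : ℕ)
    (hl : (c1 ++ v :: c2).length ≤ n + 1)
    (hm : Mult (c1 ++ v :: c2) (p ++ y :: ((c1 ++ v :: c2) ++ ([x, y] ++ q))))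
    (hx : 2 ≤ p.count x) (hv : v ∈ p) (hv' : v ∈ c2 ∨ v ∈ q) :
    RR β (p ++ y :: ((c1 ++ v :: c2) ++ ([x, y] ++ q)))
      (p ++ y :: ((c1 ++ v :: c2) ++ ([y, x] ++ q))) := by
  have key : ∀ t : List ℕ, t.Perm [x, y] →
      RR β (p ++ y :: ((c1 ++ v :: c2) ++ (t ++ q)))
        ((p ++ [v]) ++ y :: ((c1 ++ c2) ++ (t ++ q))) := by
    intro t ht
    have e1 : p ++ y :: ((c1 ++ v :: c2) ++ (t ++ q)) =
        p ++ ((y :: c1) ++ v :: (c2 ++ (t ++ q))) := by simp
    have e2 : (p ++ [v]) ++ y :: ((c1 ++ c2) ++ (t ++ q)) =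
        p ++ v :: ((y :: c1) ++ (c2 ++ (t ++ q))) := by simp
    rw [e2]
    have h1 := mv hs v (y :: c1) p (c2 ++ (t ++ q)) hv (by
      rcases hv' with h | h
      · exact List.mem_append_left _ h
      · exact List.mem_append_right _ (List.mem_append_right _ h)) (by
      intro a ha
      rw [← e1, cw ht]
      rcases List.mem_cons.1 ha with rfl | ha
      · simp only [List.count_append, List.count_cons_self]
        have h2 : List.count a [x, a] ≥ 1 := List.count_pos_iff.2 (by simp)
        omega
      · exact hm a (List.mem_append_left _ ha))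
    rw [← e1] at h1
    exact h1
  have hlen : (c1 ++ c2).length ≤ n := by
    simp only [List.length_append, List.length_cons] at hl ⊢
    omega
  have hef := hE (p ++ [v]) (c1 ++ c2) q x y hlen (by
    intro a ha
    have h1 : a ∈ c1 ++ v :: c2 := by
      rcases List.mem_append.1 ha with h | h
      · exact List.mem_append_left _ h
      · exact List.mem_append_right _ (List.mem_cons_of_mem _ h)
    have h2 := hm a h1
    simp only [List.count_append, List.count_cons, List.count_nil] at h2 ⊢
    omega) (by
      rw [List.count_append]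
      omega)
  exact fin3 (key [x, y] (List.Perm.refl _)) hef (key [y, x] (List.Perm.swap _ _ _))

/-- a letter of the middle which occurs in `q` -/
theorem sd2 (hs : S2 β) (n : ℕ) (hE : EF β n) (p c1 c2 q : List ℕ) (x y v : ℕ)
    (hl : (c1 ++ v :: c2).length ≤ n + 1)
    (hm : Mult (c1 ++ v :: c2) (p ++ y :: ((c1 ++ v :: c2) ++ ([x, y] ++ q))))
    (hx : 2 ≤ p.count x) (hv : v ∈ q) (hv' : v ∈ p ∨ v ∈ c1) :
    RR β (p ++ y :: ((c1 ++ v :: c2) ++ ([x, y] ++ q)))
      (p ++ y :: ((c1 ++ v :: c2) ++ ([y, x] ++ q))) := by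
  have key : ∀ t : List ℕ, t.Perm [x, y] →
      RR β (p ++ y :: ((c1 ++ v :: c2) ++ (t ++ q)))
        (p ++ y :: ((c1 ++ c2) ++ (t ++ v :: q))) := by
    intro t ht
    have e1 : p ++ y :: ((c1 ++ v :: c2) ++ (t ++ q)) =
        (p ++ y :: c1) ++ v :: ((c2 ++ t) ++ q) := by simp
    have e2 : p ++ y :: ((c1 ++ c2) ++ (t ++ v :: q)) =
        (p ++ y :: c1) ++ ((c2 ++ t) ++ v :: q) := by simp
    rw [e1, e2]
    refine (mv hs v (c2 ++ t) (p ++ y :: c1) q ?_ hv ?_).symm
    · rcases hv' with h | h
      · exact List.mem_append_left _ h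
      · exact List.mem_append_right _ (List.mem_cons_of_mem _ h)
    · intro a ha
      have h0 : ((p ++ y :: c1) ++ ((c2 ++ t) ++ v :: q)).count a =
          (p ++ y :: ((c1 ++ v :: c2) ++ ([x, y] ++ q))).count a := by
        rw [← cw ht]
        simp only [List.count_append, List.count_cons, List.count_nil]
        omega
      rw [h0]
      rcases List.mem_append.1 ha with h | h
      · exact hm a (List.mem_append_right _ (List.mem_cons_of_mem _ h))
      · have h1 := ht.mem_iff.1 h
        simp only [List.mem_cons, List.not_mem_nil, or_false] at h1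
        rcases h1 with rfl | rfl
        · simp only [List.count_append]
          omega
        · simp only [List.count_append, List.count_cons_self]
          have h2 : List.count a [x, a] ≥ 1 := List.count_pos_iff.2 (by simp)
          omega
  have hlen : (c1 ++ c2).length ≤ n := by
    simp only [List.length_append, List.length_cons] at hl ⊢
    omega
  have hef := hE p (c1 ++ c2) (v :: q) x y hlen (by
    intro a ha
    have h1 : a ∈ c1 ++ v :: c2 := by
      rcases List.mem_append.1 ha with h | h
      · exact List.mem_append_left _ h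
      · exact List.mem_append_right _ (List.mem_cons_of_mem _ h)
    have h2 := hm a h1
    simp only [List.count_append, List.count_cons, List.count_nil] at h2 ⊢
    omega) hx
  exact fin3 (key [x, y] (List.Perm.refl _)) hef (key [y, x] (List.Perm.swap _ _ _))

/-- a local letter with at least three occurrences, `GF` -/
theorem se1 (hGfk : GfkStmt) (hs : S2 β) (n : ℕ) (hE : EF β n) (hg : ∀ m, GF β m)
    (p c q : List ℕ) (x y v : ℕ) (hl : c.length ≤ n + 1)
    (hm : Mult c (p ++ y :: (c ++ ([x, y] ++ q))))
    (hx : 2 ≤ p.count x) (hvx : v ≠ x) (hvy : v ≠ y) (hk : 3 ≤ c.count v) :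
    RR β (p ++ y :: (c ++ ([x, y] ++ q))) (p ++ y :: (c ++ ([y, x] ++ q))) := by
  have hvc : v ∈ c := List.count_pos_iff.1 (by omega)
  obtain ⟨c1, c2, hc, hv1⟩ := List.eq_append_cons_of_mem hvc
  have hc1 : c1.count v = 0 := List.count_eq_zero.2 hv1
  have hk2 : c.count v = c2.count v + 1 := by
    rw [hc, List.count_append, List.count_cons_self, hc1]
    omega
  have hvc2 : v ∈ c2 := List.count_pos_iff.1 (by omega)
  obtain ⟨e1, d2, hc2, hv2⟩ := last_split hvc2
  have hd2 : d2.count v = 0 := List.count_eq_zero.2 hv2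
  have hk3 : c2.count v = e1.count v + 1 := by
    rw [hc2, List.count_append, List.count_cons_self, hd2]
  obtain ⟨j, hj⟩ : ∃ j, j = e1.count v := ⟨_, rfl⟩
  obtain ⟨d1, hd1⟩ : ∃ d1, d1 = e1.filter (fun b => decide (b ≠ v)) := ⟨_, rfl⟩
  have hd1v : v ∉ d1 := by
    rw [hd1]
    intro h
    exact (mem_fil h).2 rfl
  have hd1c : ∀ a, a ≠ v → d1.count a = e1.count a := by
    intro a ha
    rw [hd1]
    exact cnt_fil _ _ _ ha
  have hd1l : d1.length + j = e1.length := by
    rw [hd1, hj]
    exact len_fil _ _
  have hd1m : ∀ a ∈ d1, a ∈ c ∧ a ≠ v := by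
    intro a ha
    rw [hd1] at ha
    obtain ⟨h1, h2⟩ := mem_fil ha
    refine ⟨?_, h2⟩
    rw [hc, hc2]
    simp [h1]
  have hcc : ∀ a, a ≠ v → c.count a = c1.count a + (d1.count a + d2.count a) := by
    intro a ha
    rw [hc, hc2, List.count_append, cnt_cons v a _ ha, List.count_append, cnt_cons v a _ ha,
      hd1c a ha]
  have key : ∀ t : List ℕ, t.Perm [x, y] →
      RR β (p ++ y :: (c ++ (t ++ q)))
        (p ++ y :: ((c1 ++ v :: (d1 ++ d2)) ++ (t ++ (List.replicate (j + 1) v ++ q)))) := by
    intro t ht
    have hcnt : ∀ a, a ∈ c ∨ a ∈ t → a ≠ v →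
        2 ≤ p.count a + ([y].count a + (c1.count a + (d1.count a + d2.count a) +
          (t.count a + q.count a))) := by
      intro a ha hav
      have h2 : (p ++ y :: (c ++ (t ++ q))).count a =
          p.count a + ([y].count a + (c1.count a + (d1.count a + d2.count a) +
          (t.count a + q.count a))) := by
        have e3 : y :: (c ++ (t ++ q)) = [y] ++ (c ++ (t ++ q)) := rfl
        rw [e3, List.count_append, List.count_append, List.count_append, List.count_append,
          hcc a hav]
      rw [← h2, cw ht]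
      rcases ha with ha | ha
      · exact hm a ha
      · have h1 := ht.mem_iff.1 ha
        simp only [List.mem_cons, List.not_mem_nil, or_false] at h1
        rcases h1 with rfl | rfl
        · simp only [List.count_append]
          omega
        · simp only [List.count_append, List.count_cons_self]
          have h2 : List.count a [x, a] ≥ 1 := List.count_pos_iff.2 (by simp)
          omega
    -- gather
    have s1 : p ++ y :: (c ++ (t ++ q)) =
        (p ++ y :: (c1 ++ [v])) ++ (e1 ++ (v :: (d2 ++ (t ++ q)))) := by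
      rw [hc, hc2]
      simp
    have g1 := gr hs v e1 (p ++ y :: (c1 ++ [v])) (v :: (d2 ++ (t ++ q))) (by simp) (by simp) (by
      intro a ha hav
      rw [← s1, cw ht]
      refine hm a ?_
      rw [hc, hc2]
      simp [ha])
    rw [← s1, ← hd1, ← hj] at g1
    have s2 : (p ++ y :: (c1 ++ [v])) ++ (d1 ++ (List.replicate j v ++ (v :: (d2 ++ (t ++ q))))) =
        (p ++ y :: c1) ++ v :: (d1 ++ (List.replicate (j + 2 - 1) v ++ (d2 ++ (t ++ q)))) := by
      have e3 : j + 2 - 1 = j + 1 := by omega
      rw [e3, List.replicate_succ']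
      simp
    rw [s2] at g1
    have g2 := hGfk β hs d1.length (hg _) (p ++ y :: c1) d1 (d2 ++ (t ++ q)) v (j + 2)
      (by omega) le_rfl hd1v (by
        intro a ha
        obtain ⟨h1, h2⟩ := hd1m a ha
        have h3 := hcnt a (Or.inl h1) h2
        rw [List.count_append, List.count_append, cnt_cons v a _ h2, List.count_append,
          List.count_append, cnt_rep _ _ _ h2]
        simp only [List.count_append, List.count_cons, List.count_nil] at h3 ⊢
        omega)
    have hvt : v ∉ t := by
      intro h
      have h1 := ht.mem_iff.1 h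
      simp only [List.mem_cons, List.not_mem_nil, or_false] at h1
      rcases h1 with h1 | h1
      · exact hvx h1
      · exact hvy h1
    have g3 := hGfk β hs (d1 ++ (d2 ++ t)).length (hg _) (p ++ y :: c1) (d1 ++ (d2 ++ t)) q v
      (j + 2) (by omega) le_rfl (by
        simp only [List.mem_append, not_or]
        exact ⟨hd1v, hv2, hvt⟩) (by
        intro a ha
        have h2 : a ≠ v := by
          rintro rfl
          simp only [List.mem_append] at ha
          tauto
        have h1 : a ∈ c ∨ a ∈ t := by
          simp only [List.mem_append] at ha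
          rcases ha with h | h | h
          · exact Or.inl (hd1m a h).1
          · left
            rw [hc, hc2]
            simp [h]
          · exact Or.inr h
        have h3 := hcnt a h1 h2
        simp only [List.count_append, List.count_cons, List.count_nil] at h3 ⊢
        omega)
    have s3 : (p ++ y :: c1) ++ (List.replicate (j + 2) v ++ ((d1 ++ (d2 ++ t)) ++ q)) =
        (p ++ y :: c1) ++ (List.replicate (j + 2) v ++ (d1 ++ (d2 ++ (t ++ q)))) := by simp
    rw [s3] at g3
    have s4 : (p ++ y :: c1) ++ v :: ((d1 ++ (d2 ++ t)) ++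
        (List.replicate (j + 2 - 1) v ++ q)) =
        p ++ y :: ((c1 ++ v :: (d1 ++ d2)) ++ (t ++ (List.replicate (j + 1) v ++ q))) := by
      have e3 : j + 2 - 1 = j + 1 := by omega
      rw [e3]
      simp
    rw [s4] at g3
    exact fin3 g1 g2 g3
  have hlen : (c1 ++ v :: (d1 ++ d2)).length ≤ n := by
    have h1 : c.length = c1.length + (e1.length + (d2.length + 1) + 1) := by
      rw [hc, hc2]
      simp only [List.length_append, List.length_cons]
    simp only [List.length_append, List.length_cons]
    omega
  have hef := hE p (c1 ++ v :: (d1 ++ d2)) (List.replicate (j + 1) v ++ q) x y hlen (by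
    intro a ha
    by_cases hav : a = v
    · subst hav
      have h1 : List.count a (c1 ++ a :: (d1 ++ d2)) ≥ 1 := List.count_pos_iff.2 (by simp)
      have h2 : List.count a (List.replicate (j + 1) a) = j + 1 := List.count_replicate_self
      have e3 : x :: y :: (List.replicate (j + 1) a ++ q) =
        [x, y] ++ (List.replicate (j + 1) a ++ q) := rfl
      have e4 : y :: ((c1 ++ a :: (d1 ++ d2)) ++ ([x, y] ++ (List.replicate (j + 1) a ++ q))) =
        [y] ++ ((c1 ++ a :: (d1 ++ d2)) ++ ([x, y] ++ (List.replicate (j + 1) a ++ q))) := rfl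
      rw [e3, e4, List.count_append, List.count_append, List.count_append, List.count_append,
        List.count_append, List.count_append, h2]
      rw [List.count_append] at h1
      omega
    · have h1 : a ∈ c := by
        rcases List.mem_append.1 ha with h | h
        · rw [hc]
          exact List.mem_append_left _ h
        · rcases List.mem_cons.1 h with h | h
          · exact absurd h hav
          · rcases List.mem_append.1 h with h | h
            · exact (hd1m a h).1
            · rw [hc, hc2]
              simp [h]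
      have h3 := hm a h1
      have e3 : x :: y :: (List.replicate (j + 1) v ++ q) =
        [x, y] ++ (List.replicate (j + 1) v ++ q) := rfl
      have e4 : y :: ((c1 ++ v :: (d1 ++ d2)) ++ ([x, y] ++ (List.replicate (j + 1) v ++ q))) =
        [y] ++ ((c1 ++ v :: (d1 ++ d2)) ++ ([x, y] ++ (List.replicate (j + 1) v ++ q))) := rfl
      have e5 : y :: (c ++ ([x, y] ++ q)) = [y] ++ (c ++ ([x, y] ++ q)) := rfl
      rw [e5, List.count_append, List.count_append, List.count_append, List.count_append,
        hcc a hav] at h3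
      rw [e3, e4, List.count_append, List.count_append, List.count_append, List.count_append,
        List.count_append, List.count_append, cnt_cons v a _ hav, List.count_append,
        cnt_rep _ _ _ hav]
      omega) hx
  exact fin3 (key [x, y] (List.Perm.refl _)) hef (key [y, x] (List.Perm.swap _ _ _))

/-- a local letter with at least three occurrences, `GFd` -/
theorem se2 (hGfk : GfkStmt) (hMrl : MrlStmt) (hs : S2 β) (n : ℕ) (hE : EF β n)
    (hg : ∀ m, GFd β m) (p c q : List ℕ) (x y v : ℕ) (hl : c.length ≤ n + 1)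
    (hm : Mult c (p ++ y :: (c ++ ([x, y] ++ q))))
    (hx : 2 ≤ p.count x) (hvx : v ≠ x) (hvy : v ≠ y) (hk : 3 ≤ c.count v) :
    RR β (p ++ y :: (c ++ ([x, y] ++ q))) (p ++ y :: (c ++ ([y, x] ++ q))) := by
  have hvc : v ∈ c := List.count_pos_iff.1 (by omega)
  obtain ⟨c1, c2, hc, hv1⟩ := List.eq_append_cons_of_mem hvc
  have hc1 : c1.count v = 0 := List.count_eq_zero.2 hv1
  have hk2 : c.count v = c2.count v + 1 := by
    rw [hc, List.count_append, List.count_cons_self, hc1]
    omega
  have hvc2 : v ∈ c2 := List.count_pos_iff.1 (by omega)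
  obtain ⟨e1, d2, hc2, hv2⟩ := last_split hvc2
  have hd2 : d2.count v = 0 := List.count_eq_zero.2 hv2
  have hk3 : c2.count v = e1.count v + 1 := by
    rw [hc2, List.count_append, List.count_cons_self, hd2]
  obtain ⟨j, hj⟩ : ∃ j, j = e1.count v := ⟨_, rfl⟩
  obtain ⟨d1, hd1⟩ : ∃ d1, d1 = e1.filter (fun b => decide (b ≠ v)) := ⟨_, rfl⟩
  have hd1v : v ∉ d1 := by
    rw [hd1]
    intro h
    exact (mem_fil h).2 rfl
  have hd1c : ∀ a, a ≠ v → d1.count a = e1.count a := by
    intro a ha
    rw [hd1]
    exact cnt_fil _ _ _ ha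
  have hd1l : d1.length + j = e1.length := by
    rw [hd1, hj]
    exact len_fil _ _
  have hd1m : ∀ a ∈ d1, a ∈ c ∧ a ≠ v := by
    intro a ha
    rw [hd1] at ha
    obtain ⟨h1, h2⟩ := mem_fil ha
    refine ⟨?_, h2⟩
    rw [hc, hc2]
    simp [h1]
  have hcc : ∀ a, a ≠ v → c.count a = c1.count a + (d1.count a + d2.count a) := by
    intro a ha
    rw [hc, hc2, List.count_append, cnt_cons v a _ ha, List.count_append, cnt_cons v a _ ha,
      hd1c a ha]
  have key : ∀ t : List ℕ, t.Perm [x, y] →
      RR β (p ++ y :: (c ++ (t ++ q)))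
        ((p ++ List.replicate (j + 1) v) ++ y :: ((c1 ++ (d1 ++ v :: d2)) ++ (t ++ q))) := by
    intro t ht
    have hyt : y ∈ t := ht.mem_iff.2 (by simp)
    have hcnt : ∀ a, a ∈ c ∨ a ∈ t → a ≠ v →
        2 ≤ p.count a + ([y].count a + (c1.count a + (d1.count a + d2.count a) +
          (t.count a + q.count a))) := by
      intro a ha hav
      have h2 : (p ++ y :: (c ++ (t ++ q))).count a =
          p.count a + ([y].count a + (c1.count a + (d1.count a + d2.count a) +
          (t.count a + q.count a))) := by
        have e3 : y :: (c ++ (t ++ q)) = [y] ++ (c ++ (t ++ q)) := rfl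
        rw [e3, List.count_append, List.count_append, List.count_append, List.count_append,
          hcc a hav]
      rw [← h2, cw ht]
      rcases ha with ha | ha
      · exact hm a ha
      · have h1 := ht.mem_iff.1 ha
        simp only [List.mem_cons, List.not_mem_nil, or_false] at h1
        rcases h1 with rfl | rfl
        · simp only [List.count_append]
          omega
        · simp only [List.count_append, List.count_cons_self]
          have h2 : List.count a [x, a] ≥ 1 := List.count_pos_iff.2 (by simp)
          omega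
    -- gather
    have s1 : p ++ y :: (c ++ (t ++ q)) =
        (p ++ y :: (c1 ++ [v])) ++ (e1 ++ (v :: (d2 ++ (t ++ q)))) := by
      rw [hc, hc2]
      simp
    have g1 := gl hs v e1 (p ++ y :: (c1 ++ [v])) (v :: (d2 ++ (t ++ q))) (by simp) (by simp) (by
      intro a ha hav
      rw [← s1, cw ht]
      refine hm a ?_
      rw [hc, hc2]
      simp [ha])
    rw [← s1, ← hd1, ← hj] at g1
    have s2 : (p ++ y :: (c1 ++ [v])) ++ (List.replicate j v ++ (d1 ++ (v :: (d2 ++ (t ++ q))))) =
        (p ++ y :: c1) ++ (List.replicate (j + 2 - 1) v ++ (d1 ++ v :: (d2 ++ (t ++ q)))) := by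
      have e3 : j + 2 - 1 = j + 1 := by omega
      rw [e3, List.replicate_succ]
      simp
    rw [s2] at g1
    have g2 := gfdk hGfk hMrl hs d1.length (hg _) (p ++ y :: c1) d1 (d2 ++ (t ++ q)) v (j + 2)
      (by omega) le_rfl hd1v (by
        intro a ha
        obtain ⟨h1, h2⟩ := hd1m a ha
        have h3 := hcnt a (Or.inl h1) h2
        simp only [List.count_append, List.count_cons, List.count_nil] at h3 ⊢
        omega)
    have g3 := gfdk hGfk hMrl hs (y :: (c1 ++ d1)).length (hg _) p (y :: (c1 ++ d1))
      (d2 ++ (t ++ q)) v (j + 2) (by omega) le_rfl (by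
        simp only [List.mem_cons, List.mem_append, not_or]
        exact ⟨hvy, hv1, hd1v⟩) (by
        intro a ha
        have h2 : a ≠ v := by
          rintro rfl
          simp only [List.mem_cons, List.mem_append] at ha
          tauto
        have h1 : a ∈ c ∨ a ∈ t := by
          simp only [List.mem_cons, List.mem_append] at ha
          rcases ha with h | h | h
          · rw [h]
            exact Or.inr hyt
          · left
            rw [hc]
            simp [h]
          · exact Or.inl (hd1m a h).1
        have h3 := hcnt a h1 h2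
        simp only [List.count_append, List.count_cons, List.count_nil] at h3 ⊢
        omega)
    have s3 : p ++ ((y :: (c1 ++ d1)) ++ (List.replicate (j + 2) v ++ (d2 ++ (t ++ q)))) =
        (p ++ y :: c1) ++ (d1 ++ (List.replicate (j + 2) v ++ (d2 ++ (t ++ q)))) := by simp
    rw [s3] at g3
    have s4 : p ++ (List.replicate (j + 2 - 1) v ++ ((y :: (c1 ++ d1)) ++
        v :: (d2 ++ (t ++ q)))) =
        (p ++ List.replicate (j + 1) v) ++ y :: ((c1 ++ (d1 ++ v :: d2)) ++ (t ++ q)) := by
      have e3 : j + 2 - 1 = j + 1 := by omega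
      rw [e3]
      simp
    rw [s4] at g3
    exact fin3 g1 g2 g3
  have hlen : (c1 ++ (d1 ++ v :: d2)).length ≤ n := by
    have h1 : c.length = c1.length + (e1.length + (d2.length + 1) + 1) := by
      rw [hc, hc2]
      simp only [List.length_append, List.length_cons]
    simp only [List.length_append, List.length_cons]
    omega
  have hef := hE (p ++ List.replicate (j + 1) v) (c1 ++ (d1 ++ v :: d2)) q x y hlen (by
    intro a ha
    have e3 : x :: y :: q = [x, y] ++ q := rfl
    have e4 : y :: ((c1 ++ (d1 ++ v :: d2)) ++ ([x, y] ++ q)) =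
      [y] ++ ((c1 ++ (d1 ++ v :: d2)) ++ ([x, y] ++ q)) := rfl
    by_cases hav : a = v
    · subst hav
      have h1 : List.count a (c1 ++ (d1 ++ a :: d2)) ≥ 1 := List.count_pos_iff.2 (by simp)
      have h2 : List.count a (List.replicate (j + 1) a) = j + 1 := List.count_replicate_self
      rw [e3, e4, List.count_append, List.count_append, h2, List.count_append,
        List.count_append (l₁ := c1 ++ (d1 ++ a :: d2))]
      omega
    · have h1 : a ∈ c := by
        rcases List.mem_append.1 ha with h | h
        · rw [hc]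
          exact List.mem_append_left _ h
        · rcases List.mem_append.1 h with h | h
          · exact (hd1m a h).1
          · rcases List.mem_cons.1 h with h | h
            · exact absurd h hav
            · rw [hc, hc2]
              simp [h]
      have h3 := hm a h1
      have e5 : y :: (c ++ ([x, y] ++ q)) = [y] ++ (c ++ ([x, y] ++ q)) := rfl
      rw [e5, List.count_append, List.count_append, List.count_append, List.count_append,
        hcc a hav] at h3
      rw [e3, e4, List.count_append, List.count_append, cnt_rep _ _ _ hav, List.count_append,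
        List.count_append, List.count_append, List.count_append, cnt_cons v a _ hav,
        List.count_append]
      omega) (by
      rw [List.count_append]
      omega)
  exact fin3 (key [x, y] (List.Perm.refl _)) hef (key [y, x] (List.Perm.swap _ _ _))

/-- the renaming -/
def rn (D : List ℕ) (v : ℕ) : ℕ := if v ∈ D then 3 * D.idxOf v + 1 else 27 + 3 * v

theorem rn_inj (D : List ℕ) : Function.Injective (rn D) := by
  intro v w h
  unfold rn at h
  by_cases hv : v ∈ D
  · by_cases hw : w ∈ D
    · rw [if_pos hv, if_pos hw] at h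
      exact (List.idxOf_inj hv).1 (by omega)
    · rw [if_pos hv, if_neg hw] at h
      omega
  · by_cases hw : w ∈ D
    · rw [if_neg hv, if_pos hw] at h
      omega
    · rw [if_neg hv, if_neg hw] at h
      omega

/-- the image of the letters `≡ 0` modulo `3` -/
def hh (y : ℕ) (z : ℕ) : List ℕ := if z = 0 then [y] else [(z - 27) / 3]

/-- canonical words -/
theorem sf (hIne : IneStmt) (n : ℕ)
    (hcan : ∀ (s1 s2 : ℕ) (P1 P2 P3 Q α : List ℕ), ((P1 ++ s1 :: (P2 ++ s2 :: P3)) ++ Q).Nodup →
      Can (P1 ++ (P2 ++ P3)) Q α → α.length ≤ n + 1 →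
      RR β (EW 9 s1 s2 P1 P2 P3 Q (0 :: (α ++ [9, 0])))
        (EW 9 s1 s2 P1 P2 P3 Q (0 :: (α ++ [0, 9]))))
    (p c q : List ℕ) (x y : ℕ) (hl : c.length ≤ n + 1) (hx : 2 ≤ p.count x) (hxc : x ∉ c)
    (h1 : ∀ v ∈ c, v ∈ p ∨ v ∈ q → c.count v = 1)
    (h2 : ∀ v ∈ c, ¬ (v ∈ p ∨ v ∈ q) → c.count v = 2) :
    RR β (p ++ y :: (c ++ ([x, y] ++ q))) (p ++ y :: (c ++ ([y, x] ++ q))) := by
  obtain ⟨D, hD⟩ : ∃ D, D = c.filter (fun v => decide (v ∈ p ∨ v ∈ q)) := ⟨_, rfl⟩
  have hDm : ∀ v, v ∈ D ↔ v ∈ c ∧ (v ∈ p ∨ v ∈ q) := by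
    intro v
    rw [hD, List.mem_filter]
    simp
  have hDn : D.Nodup := by
    rw [List.nodup_iff_count_le_one]
    intro v
    by_cases hv : v ∈ D
    · have h3 := (hDm v).1 hv
      have h4 := h1 v h3.1 h3.2
      have h5 : D.count v ≤ c.count v := by
        rw [hD]
        exact List.Sublist.count_le v List.filter_sublist
      omega
    · rw [List.count_eq_zero.2 hv]
      omega
  obtain ⟨P1, P2, P3, Q, g, M, hperm, hL, hg9, hgh, hgD⟩ := hIne p q D (hh y) x hDn
    (fun h => hxc ((hDm x).1 h).1) hx (fun a ha => ((hDm a).1 ha).2)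
  have hmem : ∀ i, i ∈ P1 ++ (P2 ++ (P3 ++ Q)) ↔ i < D.length := by
    intro i
    rw [hperm.mem_iff, List.mem_range]
  have hnd : (P1 ++ (P2 ++ (P3 ++ Q))).Nodup := hperm.nodup_iff.2 List.nodup_range
  have hmem' : ∀ i, i ∈ P1 ++ (P2 ++ P3) ++ Q ↔ i < D.length := by
    intro i
    rw [← hmem i]
    simp only [List.mem_append]
    tauto
  -- the main block
  have hα : (c.map (rn D)).flatMap g = c := by
    have h3 : ∀ l : List ℕ, (∀ v ∈ l, v ∈ c) → (l.map (rn D)).flatMap g = l := by
      intro l
      induction l with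
      | nil => intro _; rfl
      | cons v l ih =>
        intro hl
        rw [List.map_cons, List.flatMap_cons, ih fun w hw => hl w (List.mem_cons_of_mem _ hw)]
        have h4 : g (rn D v) = [v] := by
          by_cases hv : v ∈ D
          · have h5 : rn D v = 3 * D.idxOf v + 1 := if_pos hv
            rw [h5, hgD _ (List.idxOf_lt_length_iff.2 hv), List.getElem_idxOf]
          · have h5 : rn D v = 27 + 3 * v := if_neg hv
            rw [h5, hgh _ (by omega) (by omega)]
            unfold hh
            rw [if_neg (by omega)]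
            congr 1
            omega
        rw [h4]
        rfl
    exact h3 c fun v hv => hv
  have hcanα : Can (P1 ++ (P2 ++ P3)) Q (c.map (rn D)) := by
    refine ⟨?_, ?_, ?_, ?_, ?_⟩
    · have e1 : P1 ++ (P2 ++ P3) ++ Q = P1 ++ (P2 ++ (P3 ++ Q)) := by simp
      rw [e1]
      exact hnd
    · intro a ha
      obtain ⟨v, _, rfl⟩ := List.mem_map.1 ha
      unfold rn
      split_ifs <;> omega
    · intro i hi
      have hi' := (hmem' i).1 hi
      have h3 : D[i] ∈ D := List.getElem_mem hi'
      have h4 : rn D D[i] = 3 * i + 1 := by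
        have h5 : rn D D[i] = 3 * D.idxOf D[i] + 1 := if_pos h3
        rw [h5, hDn.idxOf_getElem i hi']
      rw [← h4, List.count_map_of_injective _ _ (rn_inj D)]
      have h6 := (hDm _).1 h3
      exact h1 _ h6.1 h6.2
    · intro a ha ha3
      obtain ⟨v, _, rfl⟩ := List.mem_map.1 ha
      by_cases hv : v ∈ D
      · have h5 : rn D v = 3 * D.idxOf v + 1 := if_pos hv
        exact ⟨D.idxOf v, (hmem' _).2 (List.idxOf_lt_length_iff.2 hv), h5⟩
      · have h5 : rn D v = 27 + 3 * v := if_neg hv
        rw [h5] at ha3
        omega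
    · intro a ha ha3
      obtain ⟨v, hvc, rfl⟩ := List.mem_map.1 ha
      by_cases hv : v ∈ D
      · have h5 : rn D v = 3 * D.idxOf v + 1 := if_pos hv
        rw [h5] at ha3
        omega
      · have h5 : rn D v = 27 + 3 * v := if_neg hv
        refine ⟨?_, by omega⟩
        rw [List.count_map_of_injective _ _ (rn_inj D)]
        refine h2 v hvc fun h6 => hv ((hDm v).2 ⟨hvc, h6⟩)
  have hnd2 : ((P1 ++ D.length :: (P2 ++ (D.length + 1) :: P3)) ++ Q).Nodup := by
    have e1 : ((P1 ++ D.length :: (P2 ++ (D.length + 1) :: P3)) ++ Q).Perm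
        (D.length :: (D.length + 1) :: (P1 ++ (P2 ++ (P3 ++ Q)))) := by
      rw [List.perm_iff_count]
      intro a
      simp only [List.count_append, List.count_cons]
      omega
    rw [e1.nodup_iff, List.nodup_cons, List.nodup_cons]
    refine ⟨?_, ?_, hnd⟩
    · rw [List.mem_cons, hmem]
      omega
    · rw [hmem]
      omega
  have h3 := hcan D.length (D.length + 1) P1 P2 P3 Q (c.map (rn D)) hnd2 hcanα
    (by rw [List.length_map]; exact hl)
  have h4 := (RR.refl (β := β) M).append (h3.sub g)
  rw [← hL, ← hL] at h4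
  have g0 : g 0 = [y] := by
    rw [hgh 0 rfl (by norm_num)]
    rfl
  have f1 : (0 :: (c.map (rn D) ++ [9, 0])).flatMap g = y :: (c ++ [x, y]) := by
    rw [List.flatMap_cons, List.flatMap_append, hα, g0, List.flatMap_cons, List.flatMap_cons, hg9,
      g0]
    rfl
  have f2 : (0 :: (c.map (rn D) ++ [0, 9])).flatMap g = y :: (c ++ [y, x]) := by
    rw [List.flatMap_cons, List.flatMap_append, hα, g0, List.flatMap_cons, List.flatMap_cons, hg9,
      g0]
    rfl
  rw [f1, f2] at h4
  have f3 : ∀ t : List ℕ, p ++ (y :: (c ++ t) ++ q) = p ++ y :: (c ++ (t ++ q)) := by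
    intro t
    simp
  rw [f3, f3] at h4
  exact h4

/-- **ECN** -/
theorem ecn (hIne : IneStmt) (hGfk : GfkStmt) (hMrl : MrlStmt) : EcnStmt := by
  intro β n H hE hgg hcan p c q x y hl hm hx
  have hs := H.s2
  -- short words
  by_cases hl0 : c.length ≤ n
  · exact hE p c q x y hl0 hm hx
  by_cases hxy : x = y
  · subst hxy
    exact RR.refl _
  have hxp : x ∈ p := List.count_pos_iff.1 (by omega)
  by_cases hxc : x ∈ c
  · obtain ⟨c1, c2, rfl⟩ := List.append_of_mem hxc
    have h1 := H.zz p c2 c1 q y x (by
      intro a ha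
      have h2 := hm a (List.mem_append_left _ ha)
      simp only [List.count_append, List.count_cons] at h2 ⊢
      omega)
    have e1 : ∀ u : List ℕ, p ++ y :: (c1 ++ x :: (c2 ++ u)) =
        p ++ y :: ((c1 ++ x :: c2) ++ u) := by
      intro u
      simp
    rw [e1, e1] at h1
    exact h1.symm
  by_cases hyc : y ∈ c
  · obtain ⟨c1, c2, rfl⟩ := List.append_of_mem hyc
    have h1 := hE (p ++ y :: c1) c2 q x y (by
      simp only [List.length_append, List.length_cons] at hl
      omega) (by
      intro a ha
      have h2 := hm a (List.mem_append_right _ (List.mem_cons_of_mem _ ha))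
      simp only [List.count_append, List.count_cons] at h2 ⊢
      omega) (by
      rw [List.count_append]
      omega)
    have e1 : ∀ u : List ℕ, p ++ y :: c1 ++ y :: (c2 ++ u) = p ++ y :: ((c1 ++ y :: c2) ++ u) := by
      intro u
      simp
    rw [e1, e1] at h1
    exact h1
  by_cases hq : x ∈ q ∨ y ∈ q
  · have e1 : ∀ u : List ℕ, p ++ y :: (c ++ u) = (p ++ y :: c) ++ u := by
      intro u
      simp
    rw [e1, e1]
    rcases hq with h | h
    · exact ((Pool.Agent.MVD.H27.ctx β).2.1 hs (p ++ y :: c) q y x (by simp) h).symm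
    · exact (Pool.Agent.MVD.H27.ctx β).2.1 hs (p ++ y :: c) q x y
        (List.mem_append_left _ hxp) h
  by_cases hd1 : ∃ c1 v c2, c = c1 ++ v :: c2 ∧ v ∈ p ∧ (v ∈ c2 ∨ v ∈ q)
  · obtain ⟨c1, v, c2, rfl, h1, h2⟩ := hd1
    exact sd1 hs n hE p c1 c2 q x y v hl hm hx h1 h2
  by_cases hd2 : ∃ c1 v c2, c = c1 ++ v :: c2 ∧ v ∈ q ∧ (v ∈ p ∨ v ∈ c1)
  · obtain ⟨c1, v, c2, rfl, h1, h2⟩ := hd2
    exact sd2 hs n hE p c1 c2 q x y v hl hm hx h1 h2
  by_cases he : ∃ v ∈ c, 3 ≤ c.count v
  · obtain ⟨v, hv, hv3⟩ := he
    have hvx : v ≠ x := fun h => hxc (h ▸ hv)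
    have hvy : v ≠ y := fun h => hyc (h ▸ hv)
    rcases hgg with hg | hg
    · exact se1 hGfk hs n hE hg p c q x y v hl hm hx hvx hvy hv3
    · exact se2 hGfk hMrl hs n hE hg p c q x y v hl hm hx hvx hvy hv3
  refine sf hIne n hcan p c q x y hl hx hxc ?_ ?_
  · intro v hv hpq
    have hpos : 1 ≤ c.count v := List.count_pos_iff.2 hv
    by_contra hne
    have hge : 2 ≤ c.count v := by omega
    rcases hpq with h | h
    · obtain ⟨c1, c2, hc, hv1⟩ := List.eq_append_cons_of_mem hv
      refine hd1 ⟨c1, v, c2, hc, h, Or.inl ?_⟩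
      rw [hc, List.count_append, List.count_cons_self, List.count_eq_zero.2 hv1] at hge
      exact List.count_pos_iff.1 (by omega)
    · obtain ⟨c1, c2, hc, hv1⟩ := last_split hv
      refine hd2 ⟨c1, v, c2, hc, h, Or.inr ?_⟩
      rw [hc, List.count_append, List.count_cons_self, List.count_eq_zero.2 hv1] at hge
      exact List.count_pos_iff.1 (by omega)
  · intro v hv hpq
    push Not at hpq
    have h1 := hm v hv
    have hvx : v ≠ x := fun h => hxc (h ▸ hv)
    have hvy : v ≠ y := fun h => hyc (h ▸ hv)
    have h2 : ¬ 3 ≤ c.count v := fun h => he ⟨v, hv, h⟩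
    rw [List.count_append, List.count_eq_zero.2 hpq.1, cnt_cons y v _ hvy, List.count_append,
      cnt_cons x v _ hvx, cnt_cons y v _ hvy, List.count_eq_zero.2 hpq.2] at h1
    omega

end Pool.Agent.MVD.H23.Ecn
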